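import Pool.Agent.H84.Unc.Defs

/-! # UNC2, module N4: calculus of the tilt -/

set_option autoImplicit false

open MeasureTheory Set

namespace Pool.Agent.H84.Unc

open Pool.Agent.H84

variable {n N : ℕ}

theorem one_add_tanh (u : ℝ) : 1 + Real.tanh u = Real.exp u / Real.cosh u := by
  have h := (Real.cosh_pos u).ne'
  rw [Real.tanh_eq_sinh_div_cosh, ← Real.cosh_add_sinh]
  field_simp

theorem one_add_tanh_pos (u : ℝ) : 0 < 1 + Real.tanh u := by
  rw [one_add_tanh]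
  have := Real.cosh_pos u
  positivity

theorem log_one_add_tanh (u : ℝ) :
    Real.log (1 + Real.tanh u) = u - Real.log (Real.cosh u) := by
  rw [one_add_tanh, Real.log_div (Real.exp_pos u).ne' (Real.cosh_pos u).ne', Real.log_exp]

theorem hasDerivAt_tanh' (u : ℝ) : HasDerivAt Real.tanh (1 - Real.tanh u ^ 2) u := by
  have h1 := (Real.hasDerivAt_sinh u).div (Real.hasDerivAt_cosh u) (Real.cosh_pos u).ne'
  have h2 : (fun x => Real.sinh x / Real.cosh x) = Real.tanh := by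
    ext x
    rw [Real.tanh_eq_sinh_div_cosh]
  have h3 : (Real.sinh / Real.cosh : ℝ → ℝ) = Real.tanh := h2
  rw [h3] at h1
  have h4 : 1 - Real.tanh u ^ 2 =
      (Real.cosh u * Real.cosh u - Real.sinh u * Real.sinh u) / Real.cosh u ^ 2 := by
    rw [Real.tanh_eq_sinh_div_cosh]
    have := (Real.cosh_pos u).ne'
    field_simp
  rw [h4]
  exact h1

theorem UU_eq (W : (Fin n → ℝ) → ℝ) (φ : ℝ) :
    UU W φ = fun x => W x - ∑ i, (φ * zc i x - Real.log (Real.cosh (φ * zc i x))) := by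
  ext x
  unfold UU tf
  simp only [log_one_add_tanh]

theorem UU_contDiff {W : (Fin n → ℝ) → ℝ} (hW : ContDiff ℝ 2 W) (φ : ℝ) :
    ContDiff ℝ 2 (UU W φ) := by
  rw [UU_eq]
  apply hW.sub
  apply ContDiff.sum
  intro i _
  have h1 : ContDiff ℝ 2 fun x : Fin n → ℝ => φ * zc i x := by
    unfold zc
    fun_prop
  apply h1.sub
  apply ContDiff.log
  · exact Real.contDiff_cosh.comp h1
  · intro x
    exact (Real.cosh_pos _).ne'

theorem UU_exp (W : (Fin n → ℝ) → ℝ) (φ : ℝ) (x : Fin n → ℝ) :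
    Real.exp (-(UU W φ x)) = (∏ i, (1 + tf φ i x)) * Real.exp (-W x) := by
  unfold UU
  rw [neg_sub, sub_eq_add_neg, Real.exp_add, Real.exp_sum]
  congr 1
  refine Finset.prod_congr rfl fun i _ => ?_
  exact Real.exp_log (one_add_tanh_pos _)

theorem hasFDerivAt_zc (i : Fin n) (x : Fin n → ℝ) :
    HasFDerivAt (zc i) (ContinuousLinearMap.proj i : (Fin n → ℝ) →L[ℝ] ℝ) x := by
  have h1 : HasFDerivAt (fun y : Fin n → ℝ => y i)
      (ContinuousLinearMap.proj i : (Fin n → ℝ) →L[ℝ] ℝ) x := hasFDerivAt_apply i x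
  exact h1.sub_const _

theorem pd_comp_zc {ψ : ℝ → ℝ} {ψ' : ℝ} (φ : ℝ) (i : Fin n) (x : Fin n → ℝ)
    (h : HasDerivAt ψ ψ' (φ * zc i x)) :
    HasFDerivAt (fun y => ψ (φ * zc i y))
      ((ψ' * φ) • (ContinuousLinearMap.proj i : (Fin n → ℝ) →L[ℝ] ℝ)) x := by
  have h1 : HasFDerivAt (fun y => φ * zc i y)
      (φ • (ContinuousLinearMap.proj i : (Fin n → ℝ) →L[ℝ] ℝ)) x :=
    (hasFDerivAt_zc i x).const_mul φ
  have h2 := h.comp_hasFDerivAt x h1
  rw [smul_smul] at h2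
  exact h2

theorem hasFDerivAt_UU {W : (Fin n → ℝ) → ℝ} (hW : ContDiff ℝ 2 W) (φ : ℝ) (x : Fin n → ℝ) :
    HasFDerivAt (UU W φ) (fderiv ℝ W x - ∑ i, ((1 - tf φ i x) * φ) •
      (ContinuousLinearMap.proj i : (Fin n → ℝ) →L[ℝ] ℝ)) x := by
  rw [UU_eq]
  have h1 : HasFDerivAt W (fderiv ℝ W x) x :=
    (hW.differentiable (by norm_num) x).hasFDerivAt
  apply h1.sub
  apply HasFDerivAt.fun_sum
  intro i _
  have h2 : HasDerivAt (fun u : ℝ => u - Real.log (Real.cosh u))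
      (1 - Real.sinh (φ * zc i x) / Real.cosh (φ * zc i x)) (φ * zc i x) :=
    (hasDerivAt_id _).sub ((Real.hasDerivAt_cosh _).log (Real.cosh_pos _).ne')
  have h3 := pd_comp_zc φ i x h2
  have h4 : tf φ i x = Real.sinh (φ * zc i x) / Real.cosh (φ * zc i x) := by
    unfold tf
    rw [Real.tanh_eq_sinh_div_cosh]
  rw [h4]
  exact h3

theorem pd_UU {W : (Fin n → ℝ) → ℝ} (hW : ContDiff ℝ 2 W) (φ : ℝ) (j : Fin n) :
    pd j (UU W φ) = fun x => pd j W x - (1 - tf φ j x) * φ := by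
  ext x
  unfold pd
  rw [(hasFDerivAt_UU hW φ x).fderiv]
  simp [ContinuousLinearMap.sum_apply, Pi.single_apply]

theorem hasFDerivAt_pd_UU {W : (Fin n → ℝ) → ℝ} (hW : ContDiff ℝ 2 W) (φ : ℝ) (j : Fin n)
    (x : Fin n → ℝ) :
    HasFDerivAt (pd j (UU W φ)) (fderiv ℝ (pd j W) x + ((1 - tf φ j x ^ 2) * φ * φ) •
      (ContinuousLinearMap.proj j : (Fin n → ℝ) →L[ℝ] ℝ)) x := by
  rw [pd_UU hW]
  have hpd : DifferentiableAt ℝ (pd j W) x := by
    have h1 : ContDiff ℝ 1 (fderiv ℝ W) := hW.fderiv_right (by norm_num)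
    have h2 : ContDiff ℝ 1 (pd j W) := h1.clm_apply contDiff_const
    exact h2.differentiable (by norm_num) x
  have h3 : HasDerivAt (fun u : ℝ => (1 - Real.tanh u) * φ)
      (-(1 - Real.tanh (φ * zc j x) ^ 2) * φ) (φ * zc j x) :=
    ((hasDerivAt_tanh' _).const_sub 1).mul_const φ
  have h4 := pd_comp_zc φ j x h3
  have h5 := hpd.hasFDerivAt.sub h4
  refine h5.congr_fderiv ?_
  rw [sub_eq_add_neg, ← neg_smul]
  congr 2
  unfold tf
  ring

theorem UU_hess {W : (Fin n → ℝ) → ℝ} (hW : ContDiff ℝ 2 W) (hH : HessGe W (fun _ _ => 0))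
    (φ : ℝ) : HessGe (UU W φ) (fun i x => φ ^ 2 * (1 - tf φ i x ^ 2)) := by
  intro x hx v
  have h1 : ∀ i j, pd i (pd j (UU W φ)) x = pd i (pd j W) x +
      (if i = j then φ ^ 2 * (1 - tf φ j x ^ 2) else 0) := by
    intro i j
    have : pd i (pd j (UU W φ)) x = fderiv ℝ (pd j (UU W φ)) x (Pi.single i 1) := rfl
    rw [this, (hasFDerivAt_pd_UU hW φ j x).fderiv]
    have h2 : pd i (pd j W) x = fderiv ℝ (pd j W) x (Pi.single i 1) := rfl
    rw [h2]
    simp only [ContinuousLinearMap.add_apply, FunLike.coe_smul, Pi.smul_apply,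
      ContinuousLinearMap.proj_apply, Pi.single_apply, smul_eq_mul]
    by_cases hij : i = j
    · subst hij
      simp
      ring
    · rw [if_neg (Ne.symm hij), if_neg hij]
      ring
  have h2 := hH x hx v
  simp only [zero_mul, Finset.sum_const_zero] at h2
  have h3 : ∑ i, ∑ j, pd i (pd j (UU W φ)) x * v i * v j =
      ∑ i, ∑ j, pd i (pd j W) x * v i * v j + ∑ i, φ ^ 2 * (1 - tf φ i x ^ 2) * v i ^ 2 := by
    simp only [h1, add_mul, Finset.sum_add_distrib]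
    congr 1
    refine Finset.sum_congr rfl fun i _ => ?_
    simp [ite_mul]
    ring
  rw [h3]
  linarith

end Pool.Agent.H84.Unc
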